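import Pool.Agent.T9h72.EX.Main
import Pool.Agent.T9h65.EX.Sone
import Pool.Agent.T9h94.EX.Two2
import Pool.Agent.T9h94.EX.Val
import Pool.Agent.T9h41.EX.Add
import Pool.Agent.T9h41.EX.Infn
import Pool.Agent.T9h41.EX.Infr
import Pool.Agent.T9h41.EX.Infb
import Pool.Agent.T9h65.EX.Fam

/-!
# All normal extremals of the mixed second derivative on the disc spectrum space (MP_7ba380_an, Q2)

`B(K₂)`: bounded functions on `ℝ²` with spectrum in the closed unit disc, `T = ∂²/∂x₁∂x₂`, `‖T‖ = 2/π`.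
A function `f` in the unit ball of `B(K₂)` is a normal extremal of `T` if and only if its restrictions
to the two diagonals have the explicit form below.
-/

set_option autoImplicit false

open Set Complex

namespace Pool.Agent.Results.MP_7ba380_an.NormalExtremals

/-- entire functions `F` on `ℂ²` of exponential type with spectrum in the closed unit disc:
`|F(z)| ≤ C_ε exp (|Im z| + ε |z|)` for every `ε > 0`, where `|Im z|` is the euclidean norm of the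
imaginary part -/
def SpecDisc (F : ℂ × ℂ → ℂ) : Prop :=
  AnalyticOnNhd ℂ F univ ∧
    ∀ ε > 0, ∃ C : ℝ, ∀ z : ℂ × ℂ, ‖F z‖ ≤ C * Real.exp (√(z.1.im ^ 2 + z.2.im ^ 2) + ε * ‖z‖)

/-- the space `B(K₂)`: bounded functions on `ℝ²` which are restrictions of entire functions of
exponential type with spectrum in the closed unit disc -/
def B : Set (ℝ × ℝ → ℂ) :=
  {f | (∃ M : ℝ, ∀ p, ‖f p‖ ≤ M) ∧
    ∃ F : ℂ × ℂ → ℂ, SpecDisc F ∧ ∀ x y : ℝ, f (x, y) = F ((x : ℂ), (y : ℂ))}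

/-- the operator `T = ∂² / ∂x₁ ∂x₂` -/
noncomputable def T (f : ℝ × ℝ → ℂ) (p : ℝ × ℝ) : ℂ :=
  deriv (fun x : ℝ => deriv (fun y : ℝ => f (x, y)) p.2) p.1

/-- the norm of `B(K₂)`: `‖f‖ = sup |f(x)|` -/
noncomputable def supNorm (f : ℝ × ℝ → ℂ) : ℝ := ⨆ p, ‖f p‖

/-- the operator norm: `‖S‖ = sup {‖S f‖ : f ∈ B(K₂), ‖f‖ ≤ 1}` -/
noncomputable def opNorm (S : (ℝ × ℝ → ℂ) → ℝ × ℝ → ℂ) : ℝ :=
  sSup {r | ∃ f ∈ B, supNorm f ≤ 1 ∧ r = supNorm (S f)}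

/-- `f` is a normal extremal of `T`: `f ∈ B(K₂)`, `‖f‖ ≤ 1`, `(T f)(0) = ‖T‖` -/
def IsNormalExtremal (f : ℝ × ℝ → ℂ) : Prop :=
  f ∈ B ∧ supNorm f ≤ 1 ∧ T f 0 = ((opNorm T : ℝ) : ℂ)

/-- `- cos √(s² + π²/4) + i (α s + β) sin √(s² + π²/4) / √(s² + π²/4)` -/
noncomputable def diag (α β s : ℝ) : ℂ :=
  ((-(Real.cos √(s ^ 2 + (Real.pi / 2) ^ 2)) : ℝ) : ℂ) +
    I * (((α * s + β) * (Real.sin √(s ^ 2 + (Real.pi / 2) ^ 2) / √(s ^ 2 + (Real.pi / 2) ^ 2)) : ℝ) : ℂ)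

/-- the function `f_*(x) = - (2 x₁ x₂ / |x|²) cos √(|x|² + π² / 4)` (which is `0` at the origin) -/
noncomputable def fstar (p : ℝ × ℝ) : ℂ :=
  ((-(2 * p.1 * p.2 / (p.1 ^ 2 + p.2 ^ 2) *
    Real.cos √(p.1 ^ 2 + p.2 ^ 2 + (Real.pi / 2) ^ 2)) : ℝ) : ℂ)

/-- `g_l(x) = (x₁² - x₂²)² (sin(l |x|)/(l |x|))⁴` -/
noncomputable def gl (l : ℝ) (p : ℝ × ℝ) : ℝ :=
  (p.1 ^ 2 - p.2 ^ 2) ^ 2 * (Real.sinc (l * √(p.1 ^ 2 + p.2 ^ 2))) ^ 4

/-- Full answer to Q2: the normal extremals of `T` are exactly the functions `f` in the unit ball of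
`B(K₂)` with `f = diag α β` on the diagonal `x₁ = x₂` and `f = - diag α' (-β)` on the diagonal
`x₁ = - x₂` (arc length parameter `s`) for some real `α, α', β` with
`α² + (2β/π)² ≤ 1`, `α'² + (2β/π)² ≤ 1`; all triples with `α² + α'² + (2β/π)² ≤ 1` occur.  All functions `f_* + c g_l` with `0 < l ≤ 1/4`,
`|c| ≤ l⁴/2` are normal extremals, and `g_l(1,0) ≠ 0`. -/
theorem result :
    (∀ f : ℝ × ℝ → ℂ, IsNormalExtremal f ↔
      f ∈ B ∧ supNorm f ≤ 1 ∧ ∃ α α' β : ℝ,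
        α ^ 2 + (2 * β / Real.pi) ^ 2 ≤ 1 ∧ α' ^ 2 + (2 * β / Real.pi) ^ 2 ≤ 1 ∧
        (∀ s : ℝ, f (s / √2, s / √2) = diag α β s) ∧
        (∀ s : ℝ, f (s / √2, -(s / √2)) = -diag α' (-β) s)) ∧
    (∀ α α' β : ℝ, α ^ 2 + α' ^ 2 + (2 * β / Real.pi) ^ 2 ≤ 1 →
      ∃ f : ℝ × ℝ → ℂ, IsNormalExtremal f ∧ (∀ s : ℝ, f (s / √2, s / √2) = diag α β s) ∧
        (∀ s : ℝ, f (s / √2, -(s / √2)) = -diag α' (-β) s)) ∧
    (∀ l c : ℝ, 0 < l → l ≤ 1 / 4 → |c| ≤ l ^ 4 / 2 →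
      IsNormalExtremal (fun p => fstar p + ((c * gl l p : ℝ) : ℂ))) ∧
    (∀ l : ℝ, 0 < l → l ≤ 1 / 4 → gl l (1, 0) ≠ 0) := by
  have hM : Pool.Agent.T9h72.EX.S_MAIN := Pool.Agent.T9h72.EX.main (Pool.Agent.T9h94.EX2.two Pool.Agent.T9h65.EX.sOne)
    Pool.Agent.T9h94.EX2.conv' Pool.Agent.T9h41.EX.infb Pool.Agent.T9h41.EX.infn Pool.Agent.T9h41.EX.infr
    Pool.Agent.T9h41.EX.add
  have hn : opNorm T = 2 / Real.pi := Pool.Agent.K7.H38.MD.opNorm_T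
  have hsup : ∀ f ∈ B, (supNorm f ≤ 1 ↔ ∀ p, ‖f p‖ ≤ 1) := fun f hf =>
    ⟨fun h p => (Pool.Agent.K7.H38.MD.le_supNorm hf p).trans h,
      fun h => Pool.Agent.K7.H38.MD.supNorm_le h⟩
  refine ⟨?_, ?_, ?_, ?_⟩
  · intro f
    unfold IsNormalExtremal
    rw [hn]
    constructor
    · rintro ⟨h1, h2, h3⟩
      obtain ⟨-, -, h4⟩ := (hM.1 f).1 ⟨h1, (hsup f h1).1 h2, h3⟩
      exact ⟨h1, h2, h4⟩
    · rintro ⟨h1, h2, h3⟩
      obtain ⟨-, -, h4⟩ := (hM.1 f).2 ⟨h1, (hsup f h1).1 h2, h3⟩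
      exact ⟨h1, h2, h4⟩
  · intro α α' β h
    obtain ⟨h1, h2, h3, h4, h5⟩ := Pool.Agent.T9h65.EX.fam α α' β h
    refine ⟨Pool.Agent.T9h65.EX.fa α α' β, ⟨h1, (hsup _ h1).2 h2, ?_⟩, h4, h5⟩
    rw [hn]
    exact h3
  · intro l c hl hl4 hc
    obtain ⟨h1, h2, h3⟩ := hM.2 l c hl hl4 hc
    refine ⟨h1, (hsup _ h1).2 h2, ?_⟩
    rw [hn]
    exact h3
  · intro l hl hl4
    have h1 : 0 < Real.sinc l := by
      rw [Real.sinc_of_ne_zero hl.ne']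
      exact div_pos (Real.sin_pos_of_pos_of_lt_pi hl (by linarith [Real.pi_gt_three])) hl
    have h2 : gl l (1, 0) = Real.sinc l ^ 4 := by
      unfold gl
      simp
    rw [h2]
    positivity

end Pool.Agent.Results.MP_7ba380_an.NormalExtremals
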